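import Pool.Agent.Y192.KC.SStm
import Pool.Agent.Y153.KZ.Zup
import Pool.Agent.Y379.KG.Desc

/-! KS3: the covers have Bogomolov sheaves, if the quotient of `Z` is of log general type. -/

set_option autoImplicit false

open MvPolynomial FF Pool.Agent.W602.GT Pool.Agent.W603.LV Pool.Agent.Y192.OG Pool.Agent.Y192.KC

namespace Pool.Agent.Y547.KS

section tau

variable {n : ℕ} {L : Type} [Field L]

/-- the action of a one-parameter group -/
def tws (z : Fin n → Lˣ) (lam : Fin n → ℤ) (τ : Lˣ) : Fin n → Lˣ := fun i => z i * τ ^ lam i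

theorem prod_zpow' {ι : Type} (s : Finset ι) (τ : Lˣ) (f : ι → ℤ) :
    ∏ i ∈ s, τ ^ f i = τ ^ ∑ i ∈ s, f i := by
  classical
  induction s using Finset.induction_on with
  | empty => rw [Finset.prod_empty, Finset.sum_empty, zpow_zero]
  | insert a s ha ih => rw [Finset.prod_insert ha, Finset.sum_insert ha, zpow_add, ih]

theorem xm_tws (z : Fin n → Lˣ) (lam : Fin n → ℤ) (τ : Lˣ) (m : Fin n → ℤ) :
    xm (tws z lam τ) m = xm z m * τ ^ (∑ i, lam i * m i) := by
  unfold xm tws
  rw [← prod_zpow', ← Finset.prod_mul_distrib]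
  refine Finset.prod_congr rfl fun i _ => ?_
  rw [mul_zpow, zpow_mul]

variable [Algebra ℂ L]

theorem ep_expand (z : Fin n → Lˣ) (g : Lau n) :
    ep z g = ∑ m ∈ g.coeff.support, g.coeff m • (xm z m : L) := by
  have hg : g = ∑ m ∈ g.coeff.support, AddMonoidAlgebra.single m (g.coeff m) := by
    conv_lhs => rw [← AddMonoidAlgebra.sum_coeff_single g]
    rfl
  have h1 := congrArg (ep z) hg
  rw [map_sum] at h1
  rw [h1]
  exact Finset.sum_congr rfl fun m _ => ep_single z m _

theorem ep_class (z : Fin n → Lˣ) (lam : Fin n → ℤ) (τ : Lˣ) (k : ℤ) (g : Lau n)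
    (h : ∀ m ∈ g.coeff.support, ∑ i, lam i * m i = k) :
    ep (tws z lam τ) g = ((τ ^ k : Lˣ) : L) * ep z g := by
  rw [ep_expand, ep_expand, Finset.mul_sum]
  refine Finset.sum_congr rfl fun m hm => ?_
  rw [xm_tws, h m hm, Units.val_mul, Algebra.smul_def, Algebra.smul_def]
  ring

theorem ep_ker (Γ : Submodule ℤ (Fin n → ℤ)) (z : Fin n → Lˣ) (lam : Fin n → ℤ)
    (hlam : ∀ m ∈ Γ, ∑ i, lam i * m i = 0)
    (hcomp : ∀ g : Lau n, ep z g = 0 → ∀ q, ep z (comp Γ q g) = 0) (τ : Lˣ) (g : Lau n)
    (hg : ep z g = 0) : ep (tws z lam τ) g = 0 := by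
  classical
  rw [← sum_comp Γ g, map_sum]
  refine Finset.sum_eq_zero fun q hq => ?_
  obtain ⟨m0, hm0, rfl⟩ := Finset.mem_image.1 hq
  rw [ep_class z lam τ (∑ i, lam i * m0 i), hcomp g hg, mul_zero]
  intro m hm
  obtain ⟨h1, -⟩ := comp_supp Γ _ g m hm
  have h2 : m - m0 ∈ Γ := by
    rw [← Submodule.Quotient.mk_eq_zero Γ]
    change Γ.mkQ (m - m0) = 0
    rw [map_sub, h1, sub_self]
  have h3 := hlam _ h2
  simp only [Pi.sub_apply, mul_sub, Finset.sum_sub_distrib] at h3
  linarith

theorem ord_zpow (P : Place ℂ L) (u : Lˣ) (k : ℤ) :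
    P.ord ((u ^ k : Lˣ) : L) = k * P.ord (u : L) := by
  rcases k with k | k
  · rw [Int.ofNat_eq_natCast, zpow_natCast, Units.val_pow_eq_pow_val, P.ord_pow]
  · rw [zpow_negSucc, Units.val_inv_eq_inv_val, P.ord_inv, Units.val_pow_eq_pow_val, P.ord_pow,
      Int.negSucc_eq]
    push_cast
    ring

theorem ord_xm (P : Place ℂ L) (z : Fin n → Lˣ) (m : Fin n → ℤ) :
    P.ord ((xm z m : Lˣ) : L) = ∑ i, P.ord (z i : L) * m i := by
  have h1 : ∀ s : Finset (Fin n), P.ord ((∏ i ∈ s, z i ^ m i : Lˣ) : L) =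
      ∑ i ∈ s, P.ord (z i : L) * m i := by
    intro s
    induction s using Finset.induction_on with
    | empty => rw [Finset.prod_empty, Finset.sum_empty, Units.val_one, P.ord_one]
    | insert a s ha ih =>
      rw [Finset.prod_insert ha, Finset.sum_insert ha, Units.val_mul,
        P.ord_mul (Units.ne_zero _) (Units.ne_zero _), ih, ord_zpow, mul_comm]
  exact h1 Finset.univ

theorem ge_homog (P : Place ℂ L) {q : ℕ} {Q : MvPolynomial (Fin (n + 1)) ℂ}
    (hQ : Q.IsHomogeneous q) (y : Fin (n + 1) → L) (κ : ℤ) (hy : ∀ i, Ge P κ (y i)) :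
    Ge P (q * κ) (aeval y Q) := by
  classical
  rw [aeval_def, eval₂_eq']
  refine Ge.sum _ _ fun c hc => ?_
  have h1 : ∑ i, c i = q := by
    have h2 := hQ (mem_support_iff.mp hc)
    rw [Finsupp.weight_apply, Finsupp.sum_fintype _ _ (by simp)] at h2
    simpa using h2
  have h3 := (Ge.const (P := P) (coeff c Q)).mul
    (Ge.prod (P := P) Finset.univ (fun i => y i ^ c i) (fun i => (c i : ℤ) * κ)
      (fun i _ => (hy i).pow (c i)))
  rw [← Finset.sum_mul, zero_add] at h3
  have h4 : ∑ i, ((c i : ℕ) : ℤ) = q := by exact_mod_cast h1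
  rw [h4] at h3
  exact h3

end tau

open Pool.Agent.Y153.KZ (yy yy_ne ep_laur aeval_scale exists_form ep_unit exists_emb)
open Pool.Agent.Y379.KG (ep_lm)

/-- KS3 -/
theorem t_zbog : St_bogG → St_zbog := by
  intro hbog n r X K _ _ x hI ρ p γ Γ F' B S a hΓ hSat hgr hrel K' _ _ x' hx' hgen hp hLG
  have hEK : Algebra.EssFiniteType ℂ K' := by
    have h1 : (⊤ : IntermediateField ℂ K').FG := by
      rw [← hgen]
      exact IntermediateField.fg_adjoin_of_finite (Set.finite_range _)
    exact IntermediateField.fg_top_iff.mp h1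
  have hy0 : yy x' 0 = 1 := rfl
  have hys : ∀ i : Fin ρ, yy x' i.succ = (x' i : K') := fun i => rfl
  have hgy : IntermediateField.adjoin ℂ (Set.range fun i => yy x' i / yy x' 0) = ⊤ := by
    rw [eq_top_iff, ← hgen, IntermediateField.adjoin_le_iff]
    rintro _ ⟨i, rfl⟩
    apply IntermediateField.subset_adjoin
    refine ⟨i.succ, ?_⟩
    show yy x' i.succ / yy x' 0 = _
    rw [hy0, div_one, hys]
  obtain ⟨μ, hμ⟩ := hbog K' ρ p (yy x')
    (fun P => ∃ j, ¬ ((X.eL j : ℤ) ∣ P.ord (ep x' (F' j)))) hp (yy_ne x')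
    (by
      intro z
      have hz : z ∈ IntermediateField.adjoin ℂ (Set.range fun i => yy x' i / yy x' 0) := by
        rw [hgy]
        exact IntermediateField.mem_top
      exact isAlgebraic_algebraMap
        (⟨z, hz⟩ : IntermediateField.adjoin ℂ (Set.range fun i => yy x' i / yy x' 0)))
    (by
      have e : (fun P : Place ℂ K' => (∃ i, P.ord (yy x' i) ≠ P.ord (yy x' 0)) ∨
          ∃ j, ¬ ((X.eL j : ℤ) ∣ P.ord (ep x' (F' j)))) =
          (fun P => (∃ i, P.ord (x' i : K') ≠ 0) ∨
            ∃ j, ¬ ((X.eL j : ℤ) ∣ P.ord (ep x' (F' j)))) := by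
        funext P
        apply propext
        apply or_congr_left
        rw [hy0, P.ord_one]
        constructor
        · rintro ⟨i, hi⟩
          revert hi
          refine Fin.cases ?_ (fun i => ?_) i
          · intro hi
            rw [hy0, P.ord_one] at hi
            exact absurd rfl hi
          · intro hi
            exact ⟨i, hi⟩
        · rintro ⟨i, hi⟩
          exact ⟨i.succ, hi⟩
      rw [e]
      exact hLG)
  refine ⟨μ, fun m hm hm0 hem L _ _ t w hZ d hd => ?_⟩
  -- the coordinates do not vanish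
  have ht : ∀ i, t i ≠ 0 := by
    intro i h0
    have h1 := (hZ.van (MvPolynomial.X i) 1 (isHomogeneous_X ℂ i)).1 (by
      rw [aeval_X, h0, zero_pow hm0.ne'])
    exact X.hX i h1
  have ht0 := ht 0
  let z : Fin n → Lˣ := fun i => Units.mk0 ((t i.succ / t 0) ^ m)
    (pow_ne_zero _ (div_ne_zero (ht _) ht0))
  have hz : yy z = fun i => (t i / t 0) ^ m := by
    funext i
    refine Fin.cases ?_ (fun i => ?_) i
    · show (1 : L) = _
      rw [div_self ht0, one_pow]
    · rfl
  -- values of forms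
  have hval : ∀ (f : MvPolynomial (Fin (n + 1)) ℂ) (k : ℕ), f.IsHomogeneous k →
      aeval (fun i => t i ^ m) f = (t 0 ^ m) ^ k * ep z (laur f) := by
    intro f k hf
    rw [ep_laur, hz, ← aeval_scale hf]
    congr 2
    funext i
    rw [div_pow, mul_div_cancel₀ _ (pow_ne_zero m ht0)]
  have hker : ∀ g : Lau n, ep x g = 0 ↔ ep z g = 0 := by
    intro g
    obtain ⟨u, D, U, hu, hU, e⟩ := exists_form g
    have h1 : ep x g = 0 ↔ ep x (laur U) = 0 := by
      rw [← e, map_mul, mul_eq_zero]
      exact ⟨Or.inl, fun h => h.resolve_right (ep_unit x hu)⟩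
    have h2 : ep z g = 0 ↔ ep z (laur U) = 0 := by
      rw [← e, map_mul, mul_eq_zero]
      exact ⟨Or.inl, fun h => h.resolve_right (ep_unit z hu)⟩
    rw [h1, h2, hI U D hU, ← hZ.van U D hU, hval U D hU, mul_eq_zero]
    exact ⟨fun h => h.resolve_left (pow_ne_zero _ (pow_ne_zero _ ht0)), Or.inr⟩
  let z' : Fin ρ → Lˣ := fun i => xm z (γ i)
  have hz' : ∀ g : Lau ρ, ep z' g = ep z (lm γ g) := fun g => ep_lm z γ g
  obtain ⟨σ, hσ⟩ := exists_emb x' z' hgen (fun g => by rw [hx', hz', hker])
  have hσy : ∀ i : Fin ρ, σ (x' i : K') = (z' i : L) := by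
    intro i
    have h1 : ∀ {F : Type} [Field F] [Algebra ℂ F] (u : Fin ρ → Fˣ),
        ep u (AddMonoidAlgebra.single (Pi.single i 1) 1) = (u i : F) := by
      intro F _ _ u
      rw [ep_single, Pool.Agent.Y153.KZ.xm_single, one_smul]
    rw [← h1 x', hσ, h1 z']
  have hwt : ∀ j, X.wt m j * X.e j = m * X.d j := fun j =>
    Nat.div_mul_cancel ((hem j).mul_right _)
  have hzF : ∀ j, (w j / t 0 ^ X.wt m j) ^ X.e j = ep z (laur (X.F j)) := by
    intro j
    rw [div_pow, hZ.eqn j, hval _ _ (X.hF j), ← pow_mul, ← pow_mul, hwt, mul_comm,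
      mul_div_assoc, div_self (pow_ne_zero _ ht0), mul_one]
  -- the relations
  have hrelz : ∀ j, ep z (B j) ≠ 0 ∧ ep z (S j) ≠ 0 ∧ ep z (lm γ (F' j)) ≠ 0 ∧
      ep z (B j ^ X.eL j * X.FL j -
        lm γ (F' j) * AddMonoidAlgebra.single (a j) 1 * S j ^ X.eL j) = 0 := by
    intro j
    obtain ⟨h1, h2, h3, h4⟩ := hrel j
    refine ⟨fun h => h1 ((hker _).2 h), fun h => h2 ((hker _).2 h),
      fun h => h3 ((hker _).2 h), (hker _).1 ?_⟩
    rw [map_sub, h4, sub_self]
  let _ : Algebra K' L := σ.toRingHom.toAlgebra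
  have hST : IsScalarTower ℂ K' L := IsScalarTower.of_algebraMap_eq' (σ.comp_algebraMap).symm
  have hmap : ∀ y : K', algebraMap K' L y = σ y := fun y => rfl
  have hEL : Algebra.EssFiniteType ℂ L := by
    have h1 : (⊤ : IntermediateField ℂ L).FG := by
      rw [← hZ.gen]
      exact IntermediateField.fg_adjoin_of_finite ((Set.finite_range _).union (Set.finite_range _))
    exact IntermediateField.fg_top_iff.mp h1
  refine hμ L d (OffG X.toCov m t) hd fun P hP => ?_
  unfold OffG at hP
  push Not at hP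
  obtain ⟨c, hc1, ⟨i0, hc2⟩, hc3⟩ := hP
  set lam : Fin n → ℤ := fun i => P.ord (z i : L) with hlamdef
  have hlam : ∀ i, lam i = m * (P.ord (t i.succ) - P.ord (t 0)) := by
    intro i
    have h1 : P.ord (z i : L) = P.ord ((t i.succ / t 0) ^ m) := rfl
    rw [hlamdef]
    change P.ord (z i : L) = _
    rw [h1, P.ord_pow, P.ord_div (ht _) ht0]
  have hxmo : ∀ e : Fin n → ℤ, P.ord ((xm z e : Lˣ) : L) = ∑ i, lam i * e i := ord_xm P z
  have hmul : ∀ e : Fin n → ℤ, ∃ b : ℤ, ∑ i, lam i * e i = m * b := by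
    intro e
    refine ⟨∑ i, (P.ord (t i.succ) - P.ord (t 0)) * e i, ?_⟩
    rw [Finset.mul_sum]
    refine Finset.sum_congr rfl fun i _ => ?_
    rw [hlam]
    ring
  have hordy : ∀ i : Fin ρ, P.ord (algebraMap K' L (yy x' i.succ)) = ∑ k, lam k * γ i k := by
    intro i
    rw [hmap, hys, hσy]
    exact hxmo (γ i)
  have hordy0 : P.ord (algebraMap K' L (yy x' 0)) = 0 := by rw [hy0, map_one, P.ord_one]
  by_cases hall : ∀ i : Fin ρ, ∑ k, lam k * γ i k = 0
  · left
    refine ⟨fun i => ?_, ?_⟩
    · refine Fin.cases rfl (fun i => ?_) i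
      rw [hordy, hordy0, hall]
    · intro P0 s hs hB hs1
      obtain ⟨j, hj⟩ := hB
      apply hj
      have hPj : P0.ord (ep x' (F' j)) = P.ord (ep z (lm γ (F' j))) := by
        have h1 := hs (ep x' (F' j))
        rw [hs1, Nat.cast_one, one_mul, hmap, hσ, hz'] at h1
        exact h1.symm
      rw [hPj]
      obtain ⟨hB0, hS0, hF0, hr0⟩ := hrelz j
      have hr1 := hr0
      rw [map_sub, map_mul, map_mul, map_mul, map_pow, map_pow, ep_single, one_smul,
        sub_eq_zero] at hr1
      revert hj hPj hB0 hS0 hF0 hr0 hr1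
      refine Fin.cases ?_ (fun j => ?_) j
      · intro _ _ hB0 hS0 hF0 hr0 hr1
        show ((0 : ℕ) : ℤ) ∣ P.ord (ep z (lm γ (F' 0)))
        -- the functional vanishes on `Γ`
        have hlamΓ : ∀ e ∈ Γ, ∑ i, lam i * e i = 0 := by
          intro e he
          obtain ⟨b, rfl⟩ := (hΓ e).1 he
          have h1 : ∀ i, lam i * (∑ l, b l • γ l) i = ∑ l, b l * (lam i * γ l i) := by
            intro i
            rw [Finset.sum_apply, Finset.mul_sum]
            refine Finset.sum_congr rfl fun l _ => ?_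
            rw [Pi.smul_apply, smul_eq_mul]
            ring
          rw [Finset.sum_congr rfl fun i _ => h1 i, Finset.sum_comm]
          refine Finset.sum_eq_zero fun l _ => ?_
          rw [← Finset.mul_sum, hall l, mul_zero]
        have hcomp : ∀ g : Lau n, ep z g = 0 → ∀ q, ep z (comp Γ q g) = 0 := by
          intro g hg q
          rw [← hker] at hg ⊢
          exact hgr g hg q
        set κ : ℤ := m * (c - P.ord (t 0)) with hκ
        have hm' : (0 : ℤ) ≤ m := Int.natCast_nonneg m
        have hκ0 : κ ≤ 0 := mul_nonpos_of_nonneg_of_nonpos hm' (by linarith [hc1 0])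
        have hκi : ∀ i, κ ≤ lam i := by
          intro i
          rw [hlam]
          exact mul_le_mul_of_nonneg_left (by linarith [hc1 i.succ]) hm'
        set H : ℤ := P.ord (ep z (lm γ (F' 0))) with hH
        set Λ : ℤ := ∑ i, lam i * a 0 i with hΛ
        obtain ⟨π, hπ0, hπ⟩ := P.surj
        let πu : Lˣ := Units.mk0 π hπ0
        have hkey : ∀ M : ℕ, (X.q : ℤ) * (κ * M) ≤ H + Λ * M := by
          intro M
          set τ : Lˣ := πu ^ ((M : ℤ) - 1) with hτ
          have hτo : P.ord (τ : L) = M - 1 := by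
            rw [hτ, ord_zpow]
            change _ * P.ord π = _
            rw [hπ, mul_one]
          have h1 := ep_ker Γ z lam hlamΓ hcomp τ _ hr0
          have he0 : X.eL 0 = 0 := rfl
          have hFL0 : X.FL 0 = laur X.G := rfl
          rw [he0, pow_zero, pow_zero, one_mul, mul_one, hFL0, map_sub, map_mul, ep_single,
            one_smul, sub_eq_zero] at h1
          have h2 : ep (tws z lam τ) (lm γ (F' 0)) = ep z (lm γ (F' 0)) := by
            rw [← ep_lm, ← ep_lm]
            have h20 : (fun i => xm (tws z lam τ) (γ i)) = fun i => xm z (γ i) := by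
              funext i
              rw [xm_tws, hall i, zpow_zero, mul_one]
            rw [h20]
          rw [h2, ep_laur, xm_tws, Units.val_mul] at h1
          have h3 : Ge P (X.q * (κ * M)) (aeval (yy (tws z lam τ)) X.G) := by
            apply ge_homog P X.hG
            intro i
            refine Fin.cases ?_ (fun i => ?_) i
            · have h4 : yy (tws z lam τ) 0 = 1 := rfl
              rw [h4]
              refine Ge.one.mono ?_
              exact mul_nonpos_of_nonpos_of_nonneg hκ0 (Int.natCast_nonneg M)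
            · right
              have h4 : yy (tws z lam τ) i.succ = (z i : L) * ((τ ^ lam i : Lˣ) : L) := rfl
              rw [h4, P.ord_mul (Units.ne_zero _) (Units.ne_zero _), ord_zpow, hτo]
              have h5 : P.ord (z i : L) = lam i := rfl
              rw [h5]
              have h6 : lam i + lam i * ((M : ℤ) - 1) = lam i * M := by ring
              rw [h6]
              exact mul_le_mul_of_nonneg_right (hκi i) (Int.natCast_nonneg M)
          rw [h1] at h3
          have h7 : ep z (lm γ (F' 0)) * (((xm z (a 0) : Lˣ) : L) *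
              ((τ ^ (∑ i, lam i * a 0 i) : Lˣ) : L)) ≠ 0 :=
            mul_ne_zero hF0 (mul_ne_zero (Units.ne_zero _) (Units.ne_zero _))
          have h8 := h3.resolve_left h7
          rw [P.ord_mul hF0 (mul_ne_zero (Units.ne_zero _) (Units.ne_zero _)),
            P.ord_mul (Units.ne_zero _) (Units.ne_zero _), hxmo, ord_zpow, hτo] at h8
          have h9 : H + (Λ + Λ * ((M : ℤ) - 1)) = H + Λ * M := by ring
          rw [← h9]
          exact h8
        have hH0 : 0 ≤ H := by
          have := hkey 0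
          simpa using this
        have hΛκ : (X.q : ℤ) * κ ≤ Λ := by
          by_contra hcon
          push Not at hcon
          have h1 := hkey (H.toNat + 1)
          push_cast at h1
          rw [Int.toNat_of_nonneg hH0] at h1
          have h2 : (1 : ℤ) ≤ X.q * κ - Λ := by linarith
          have h3 : (H + 1) * 1 ≤ (H + 1) * (X.q * κ - Λ) :=
            mul_le_mul_of_nonneg_left h2 (by linarith)
          nlinarith
        have hup : H + Λ ≤ X.q * κ := by
          have hv := hval _ _ X.hG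
          have he0 : X.eL 0 = 0 := rfl
          have hFL0 : X.FL 0 = laur X.G := rfl
          rw [he0, pow_zero, pow_zero, one_mul, mul_one, hFL0] at hr1
          rw [hr1] at hv
          rw [hv, P.ord_mul (pow_ne_zero _ (pow_ne_zero _ ht0))
            (mul_ne_zero hF0 (Units.ne_zero _)), P.ord_mul hF0 (Units.ne_zero _), hxmo, P.ord_pow,
            P.ord_pow] at hc3
          rw [hκ]
          have h1 : (X.q : ℤ) * (m * (c - P.ord (t 0))) = m * X.q * c - X.q * (m * P.ord (t 0)) := by
            ring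
          rw [h1]
          linarith
        have hfin : H = 0 := by linarith
        rw [hfin]
        exact dvd_zero _
      · intro _ _ hB0 hS0 hF0 hr0 hr1
        show ((X.e j : ℕ) : ℤ) ∣ P.ord (ep z (lm γ (F' j.succ)))
        have heL : X.eL j.succ = X.e j := rfl
        have hFL : X.FL j.succ = laur (X.F j) := rfl
        rw [heL, hFL, ← hzF] at hr1
        have hw0 : (w j / t 0 ^ X.wt m j) ^ X.e j ≠ 0 := by
          intro h0
          rw [h0, mul_zero] at hr1
          exact mul_ne_zero (mul_ne_zero hF0 (Units.ne_zero _)) (pow_ne_zero _ hS0) hr1.symm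
        have h1 := congrArg P.ord hr1
        rw [P.ord_mul (pow_ne_zero _ hB0) hw0, P.ord_mul (mul_ne_zero hF0 (Units.ne_zero _))
          (pow_ne_zero _ hS0), P.ord_mul hF0 (Units.ne_zero _), P.ord_pow, P.ord_pow, P.ord_pow,
          hxmo] at h1
        obtain ⟨b, hb⟩ := hmul (a j.succ)
        rw [hb] at h1
        obtain ⟨b', hb'⟩ : ((X.e j : ℕ) : ℤ) ∣ (m : ℤ) := by exact_mod_cast hem j
        refine ⟨P.ord (ep z (B j.succ)) + P.ord (w j / t 0 ^ X.wt m j) - b' * b -
          P.ord (ep z (S j.succ)), ?_⟩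
        rw [hb'] at h1
        linear_combination -h1
  · right
    push Not at hall
    obtain ⟨i, hi⟩ := hall
    obtain ⟨b, hb⟩ := hmul (γ i)
    have hb0 : b ≠ 0 := by
      rintro rfl
      rw [mul_zero] at hb
      exact hi hb
    have h3 : (μ : ℤ) ≤ m := by exact_mod_cast hm
    have h4 : (0 : ℤ) ≤ m := Int.natCast_nonneg m
    rcases lt_or_gt_of_ne hb0 with h5 | h5
    · refine ⟨i.succ, 0, ?_⟩
      rw [hordy, hordy0, hb]
      have h6 : (m : ℤ) * b ≤ m * (-1) := mul_le_mul_of_nonneg_left (by omega) h4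
      linarith
    · refine ⟨0, i.succ, ?_⟩
      rw [hordy, hordy0, hb]
      have h6 : (m : ℤ) * 1 ≤ m * b := mul_le_mul_of_nonneg_left (by omega) h4
      linarith

end Pool.Agent.Y547.KS
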